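import Pool.Agent.H90.CNY.Stmts

/-!
# Row YT3 of the board `cny`: bound by the `p`-rank
-/

set_option autoImplicit false

namespace Pool.CND

open Finset

theorem yt3_thm (hYT2 : S_YT2) (hYSR : S_YSR) : S_YT3 := by
  intro p k G _ _ _ A d m s hp hk hA hm hcard hs
  have : Fact p.Prime := ⟨hp⟩
  set e : ℕ := (Icc 1 s).lcm (fun f => p ^ f - 1) with he
  have hne : ∀ f ∈ Icc 1 s, p ^ f - 1 ≠ 0 := by
    intro f hf
    rw [mem_Icc] at hf
    have h1 : 1 < p ^ f := Nat.one_lt_pow (by omega) hp.one_lt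
    omega
  have he1 : 1 ≤ e := by
    rw [Nat.one_le_iff_ne_zero]
    intro h0
    rw [he, Finset.lcm_eq_zero_iff] at h0
    obtain ⟨f, hf, hf0⟩ := h0
    exact hne f hf hf0
  have key : ∀ (g : G) (C : Subgroup G), ¬ p ∣ orderOf g → C ≠ ⊥ → EA p C →
      (∀ w ∈ C, g * w * g⁻¹ ∈ C) → YS g C → ∀ w ∈ C, g ^ e * w = w * g ^ e := by
    intro g C _ hC hEA hn hYS w hw
    have hpg : IsPGroup p C := by
      intro a
      refine ⟨1, ?_⟩
      rw [pow_one]
      exact Subtype.ext (by simpa using hEA.1 a a.2)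
    obtain ⟨f, hf⟩ := IsPGroup.iff_card.1 hpg
    have hf1 : 1 ≤ f := by
      rw [Nat.one_le_iff_ne_zero]
      rintro rfl
      rw [pow_zero] at hf
      exact hC (Subgroup.card_eq_one.1 hf)
    have hfs : f ≤ s := by
      have h1 := hs C hEA
      rw [hf] at h1
      exact (Nat.pow_le_pow_iff_right hp.one_lt).1 h1
    have hdvd : Nat.card C - 1 ∣ e := by
      rw [hf, he]
      exact Finset.dvd_lcm (f := fun f => p ^ f - 1) (mem_Icc.2 ⟨hf1, hfs⟩)
    obtain ⟨q, hq⟩ := hdvd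
    have h2 : Commute (g ^ (Nat.card C - 1)) w := hYSR G C g hn hC hYS w hw
    rw [hq, pow_mul]
    exact h2.pow_left q
  have h := hYT2 p k G A d m e hp hk hA hm hcard he1 key
  exact h.2

end Pool.CND
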