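import Pool.Agent.H90.CNY.Stmts

/-!
# Row YT4 of the board `cny`: the prime-to-`p` part of `N_G`
-/

set_option autoImplicit false

namespace Pool.CND

open Finset

namespace YT4

variable {k L G : Type} [Field k] [Field L] [Algebra k L] [Group G]

theorem one_mem (P : Place k L) (ρ : G →* (L ≃ₐ[k] L)) (i : ℕ) : (1 : G) ∈ ram P ρ i := by
  refine ⟨by rw [map_one]; exact Fixes.one, fun u _ _ => Or.inl ?_⟩
  rw [map_one, AlgEquiv.one_apply]

theorem anti (P : Place k L) (ρ : G →* (L ≃ₐ[k] L)) {i j : ℕ} (h : i ≤ j) :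
    ram P ρ j ⊆ ram P ρ i := by
  rintro g ⟨h1, h2⟩
  refine ⟨h1, fun u hu hu1 => ?_⟩
  rcases h2 u hu hu1 with h3 | h3
  · exact Or.inl h3
  · exact Or.inr (by omega)

theorem triv_of_le (P : Place k L) (ρ : G →* (L ≃ₐ[k] L)) {i j : ℕ} (h : i ≤ j)
    (hi : ram P ρ i = {1}) : ram P ρ j = {1} := by
  apply Set.Subset.antisymm
  · rw [← hi]
    exact anti P ρ h
  · rw [Set.singleton_subset_iff]
    exact one_mem P ρ j

end YT4

open YT4 in
theorem yt4_thm (hYLO : S_YLO) (hPUN : S_PUN) (hNGD : S_NGD) : S_YT4 := by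
  intro p k G _ _ _ r hp hk hr
  constructor
  · rintro ⟨j, hj⟩ L _ _ ρ t P l hcov hPt hl hne hlast g hg w hw
    set c : ℚ := (∑ i ∈ Icc 1 l, ((ram P ρ i).ncard : ℚ)) / (ram P ρ 0).ncard with hc
    have hcon : IsConductor P ρ c := ⟨l, hne, hlast, hc⟩
    have hmem : c ∈ Cond k G := ⟨L, _, _, ρ, t, hcov, P, hPt, hcon⟩
    have hpos : ∀ i : ℕ, 0 < (ram P ρ i).ncard := fun i =>
      (Set.ncard_pos (Set.toFinite _)).2 ⟨1, one_mem P ρ i⟩
    have hc0 : c ≠ 0 := by
      have h1 : (0 : ℚ) < (ram P ρ 0).ncard := by exact_mod_cast hpos 0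
      have h2 : (0 : ℚ) < ∑ i ∈ Icc 1 l, ((ram P ρ i).ncard : ℚ) := by
        apply Finset.sum_pos
        · intro i _
          exact_mod_cast hpos i
        · exact ⟨1, by simp [hl]⟩
      exact (div_pos h2 h1).ne'
    rcases hYLO p k L G P ρ c hp hk hcov.inj hcon with h0 | ⟨W, I, C, l', hW, hI, hC, hl', hlast', hD⟩
    · exact absurd h0 hc0
    have hCne : ram P ρ l' ≠ {1} := by
      intro h
      apply hD.ne
      rw [← hC] at h
      exact SetLike.coe_injective (h.trans Subgroup.coe_bot.symm)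
    have hll : l' = l := by
      rcases lt_trichotomy l' l with h | h | h
      · exact absurd (triv_of_le P ρ (by omega : l' + 1 ≤ l) hlast') hne
      · exact h
      · exact absurd (triv_of_le P ρ (by omega : l + 1 ≤ l') hlast) hCne
    subst hll
    have hden : c.den ∣ p ^ j * r := (hPUN p k G c hp hk hmem).trans hj
    have hYC : YC I C r := by
      rw [hD.den]
      obtain ⟨m, hm⟩ := hden
      refine ⟨j, m * c.num, ?_⟩
      rw [hm]
      push_cast
      have := Rat.den_mul_eq_num c
      rw [mul_comm (c.den : ℚ) (m : ℚ), mul_assoc, this]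
    have hg' : g ∈ I := by
      have : g ∈ (I : Set G) := by rw [hI]; exact hg
      exact this
    have hw' : w ∈ C := by
      have : w ∈ (C : Set G) := by rw [hC]; exact hw
      exact this
    exact hYC g hg' w hw'
  · intro h
    refine ⟨Nat.card G, hNGD k G _ ?_ ?_⟩
    · exact Nat.mul_pos (pow_pos hp.pos _) hr
    · rintro c ⟨L, fL, aL, ρ, t, hcov, P, hPt, hcon⟩
      rcases hYLO p k L G P ρ c hp hk hcov.inj hcon with
        h0 | ⟨W, I, C, l, hW, hI, hC, hl, hlast, hD⟩
      · exact ⟨0, by rw [h0]; simp⟩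
      have hne : ram P ρ l ≠ {1} := by
        intro h1
        apply hD.ne
        rw [← hC] at h1
        exact SetLike.coe_injective (h1.trans Subgroup.coe_bot.symm)
      obtain ⟨j, hj⟩ := hD.cardW
      have hYC : YC I C r := by
        intro g hg w hw
        have hg' : g ∈ ram P ρ 0 := by rw [← hI]; exact hg
        have hw' : w ∈ ram P ρ l := by rw [← hC]; exact hw
        exact h L ρ t P l hcov hPt hl hne hlast g hg' w hw'
      have hEA : EA p (⊥ : Subgroup G) := by
        refine ⟨fun a ha => ?_, fun a ha b hb => ?_⟩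
        · rw [Subgroup.mem_bot] at ha
          rw [ha, one_pow]
        · rw [Subgroup.mem_bot] at ha hb
          rw [ha, hb]
      obtain ⟨z, hz⟩ := (hD.mul ⊥ j r bot_le hEA (by rw [Subgroup.card_bot, mul_one]; exact hj)
        hYC).1
      have hjJ : j ≤ Nat.card G := by
        have h1 : p ^ j ≤ Nat.card G := by
          rw [← hj]
          exact Subgroup.card_le_card_group W
        have h2 : j < p ^ j := Nat.lt_pow_self hp.one_lt
        omega
      refine ⟨p ^ (Nat.card G - j) * z, ?_⟩
      push_cast at hz ⊢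
      rw [← hz]
      nth_rewrite 1 [show Nat.card G = (Nat.card G - j) + j by omega]
      rw [pow_add]
      ring

end Pool.CND
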