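import Pool.Agent.H90.CNY.Stmts

/-!
# Row YTA of the board `cny`: the last ramification group and its additive character
-/

set_option autoImplicit false

namespace Pool.CND

open Finset

namespace YTA

variable {k L G : Type} [Field k] [Field L] [Algebra k L] [Group G]

/-- `w π - π = a π ^ (t + 1) + Ge (t + 2)` -/
def H (P : Place k L) (ρ : G →* (L ≃ₐ[k] L)) (t : ℕ) (w : G) (a : k) : Prop :=
  P.Ge (ρ w P.pi - P.pi - algebraMap k L a * P.pi ^ (t + 1)) ((t : ℤ) + 2)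

theorem ord_pipow (P : Place k L) (n : ℕ) : P.ord (P.pi ^ n) = n := by
  rw [P.ord_pow P.pi_ne, P.ord_pi, mul_one]

theorem uniq {P : Place k L} {ρ : G →* (L ≃ₐ[k] L)} {t : ℕ} {w : G} {a a' : k}
    (h : H P ρ t w a) (h' : H P ρ t w a') : a = a' := by
  by_contra hne
  have h1 := P.ge_sub h h'
  have h2 : (ρ w P.pi - P.pi - algebraMap k L a * P.pi ^ (t + 1)) -
      (ρ w P.pi - P.pi - algebraMap k L a' * P.pi ^ (t + 1)) =
      algebraMap k L (a' - a) * P.pi ^ (t + 1) := by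
    rw [map_sub]
    ring
  rw [h2] at h1
  have hc : a' - a ≠ 0 := sub_ne_zero.2 (Ne.symm hne)
  have hc' : algebraMap k L (a' - a) ≠ 0 := by
    rw [Ne, map_eq_zero_iff _ (algebraMap k L).injective]
    exact hc
  have hp : P.pi ^ (t + 1) ≠ 0 := pow_ne_zero _ P.pi_ne
  rw [P.ge_iff (mul_ne_zero hc' hp), P.ord_mul _ _ hc' hp, P.ord_const _ hc, ord_pipow] at h1
  push_cast at h1
  omega

theorem H_one (P : Place k L) (ρ : G →* (L ≃ₐ[k] L)) (t : ℕ) : H P ρ t 1 0 := by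
  unfold H
  rw [map_one, AlgEquiv.one_apply, map_zero, zero_mul, sub_self, sub_zero]
  exact P.ge_zero _

theorem H_ge {P : Place k L} {ρ : G →* (L ≃ₐ[k] L)} {t : ℕ} {w : G} {a : k}
    (h : H P ρ t w a) : P.Ge (ρ w P.pi - P.pi) ((t : ℤ) + 1) := by
  have h1 : P.Ge (algebraMap k L a * P.pi ^ (t + 1)) ((t : ℤ) + 1) := by
    have h2 := P.ge_mul (P.ge_const a) (P.ge_ord (P.pi ^ (t + 1)))
    rw [ord_pipow, zero_add] at h2
    push_cast at h2
    exact h2
  have h3 : ρ w P.pi - P.pi = (ρ w P.pi - P.pi - algebraMap k L a * P.pi ^ (t + 1)) +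
      algebraMap k L a * P.pi ^ (t + 1) := by ring
  rw [h3]
  exact P.ge_add (P.ge_mono h (by omega)) h1

theorem H_mul (hLON : S_LON) {P : Place k L} {ρ : G →* (L ≃ₐ[k] L)} {t : ℕ} {w w' : G} {a a' : k}
    (ht : 1 ≤ t) (hw : Fixes P (ρ w)) (h : H P ρ t w a) (h' : H P ρ t w' a') :
    H P ρ t (w * w') (a + a') := by
  have hL := hLON k L P (ρ w) P.pi t hw P.pi_ne P.ord_pi (by omega) (H_ge h) (P.pi ^ (t + 1))
  have hL' : P.Ge (ρ w (P.pi ^ (t + 1)) - P.pi ^ (t + 1)) ((t : ℤ) + 2) := by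
    rcases hL with hL | hL
    · rw [ord_pipow] at hL
      refine P.ge_mono hL ?_
      push_cast
      omega
    · exact absurd hL (pow_ne_zero _ P.pi_ne)
  have h1 : P.Ge (algebraMap k L a' * (ρ w (P.pi ^ (t + 1)) - P.pi ^ (t + 1))) ((t : ℤ) + 2) := by
    have h2 := P.ge_mul (P.ge_const a') hL'
    rwa [zero_add] at h2
  have h3 := hw.ge h'
  unfold H
  have h4 : ρ (w * w') P.pi - P.pi - algebraMap k L (a + a') * P.pi ^ (t + 1) =
      (ρ w P.pi - P.pi - algebraMap k L a * P.pi ^ (t + 1)) +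
      (algebraMap k L a' * (ρ w (P.pi ^ (t + 1)) - P.pi ^ (t + 1)) +
      ρ w (ρ w' P.pi - P.pi - algebraMap k L a' * P.pi ^ (t + 1))) := by
    rw [map_mul, AlgEquiv.mul_apply, map_sub, map_sub, map_mul, AlgEquiv.commutes, map_add]
    ring
  rw [h4]
  exact P.ge_add h (P.ge_add h1 h3)

theorem anti (P : Place k L) (ρ : G →* (L ≃ₐ[k] L)) {i j : ℕ} (h : i ≤ j) :
    ram P ρ j ⊆ ram P ρ i := by
  rintro g ⟨h1, h2⟩
  refine ⟨h1, fun u hu hu1 => ?_⟩
  rcases h2 u hu hu1 with h3 | h3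
  · exact Or.inl h3
  · exact Or.inr (by omega)

end YTA

open YTA in
theorem yta_thm (hYLC : S_YLC) (hLON : S_LON) (_hRAM : S_RAM) (_hINJ : S_INJ) (hUMW : S_UMW) :
    S_YTA := by
  classical
  intro k L G _ _ _ _ P ρ W I ζ t hρ hW hI hζ hζ' hl
  have hUM := hUMW k L G P ρ W hρ hW
  have hWI : W ≤ I := by
    intro g hg
    have h1 : g ∈ ram P ρ 1 := by rw [← hW]; exact hg
    have h2 : g ∈ (I : Set G) := by rw [hI]; exact anti P ρ (by omega) h1
    exact h2
  have hfix : ∀ g ∈ I, Fixes P (ρ g) := by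
    intro g hg
    have h1 : g ∈ ram P ρ 0 := by rw [← hI]; exact hg
    exact h1.1
  have ht : 1 ≤ t := by
    obtain ⟨g, hg, hg1, hgt⟩ := hl.mem
    have h1 : 1 ≤ P.b (ρ g) := hUM.pos g hg hg1
    have h2 : P.b (ρ g) = t := hgt
    omega
  -- the subgroup
  let C : Subgroup G :=
    { carrier := {w | w ∈ W ∧ (w = 1 ∨ P.b (ρ w) = t)}
      one_mem' := ⟨W.one_mem, Or.inl rfl⟩
      mul_mem' := by
        rintro a b ⟨ha, ha'⟩ ⟨hb, hb'⟩
        refine ⟨W.mul_mem ha hb, ?_⟩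
        by_cases ha1 : a = 1
        · rw [ha1, one_mul]
          exact hb'
        by_cases hb1 : b = 1
        · rw [hb1, mul_one]
          exact ha'
        by_cases hab : a * b = 1
        · exact Or.inl hab
        right
        have h1 := hUM.mul a ha b hb ha1 hb1 hab
        have h2 := hl.le (a * b) (W.mul_mem ha hb) hab
        have h3 := ha'.resolve_left ha1
        have h4 := hb'.resolve_left hb1
        simp only [h3, h4, min_self] at h1 h2
        exact le_antisymm h2 h1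
      inv_mem' := by
        rintro a ⟨ha, ha'⟩
        refine ⟨W.inv_mem ha, ?_⟩
        rcases ha' with ha' | ha'
        · left
          rw [ha', inv_one]
        · by_cases ha1 : a = 1
          · left
            rw [ha1, inv_one]
          · right
            have h1 : P.b (ρ a⁻¹) = P.b (ρ a) := hUM.inv a ha ha1
            rw [h1, ha'] }
  have hC : ∀ w, w ∈ C ↔ w ∈ W ∧ (w = 1 ∨ P.b (ρ w) = t) := fun w => Iff.rfl
  clear_value C
  -- normality of `W` in `I`
  have hnW : ∀ g ∈ I, ∀ w ∈ W, g * w * g⁻¹ ∈ W := by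
    intro g hg w hw
    have hgi : g⁻¹ ∈ I := I.inv_mem hg
    rw [← hζ.ker _ (I.mul_mem (I.mul_mem hg (hWI hw)) hgi),
      hζ.mul _ (I.mul_mem hg (hWI hw)) _ hgi, hζ.mul g hg w (hWI hw), (hζ.ker w (hWI hw)).2 hw,
      mul_one, ← hζ.mul g hg _ hgi, mul_inv_cancel]
    exact (hζ.ker 1 I.one_mem).2 W.one_mem
  have hζ1 : ζ 1 = 1 := (hζ.ker 1 I.one_mem).2 W.one_mem
  -- leading coefficients
  have hlead : ∀ w ∈ C, ∃ a : k, H P ρ t w a ∧ (w ≠ 1 → a ≠ 0) ∧ ∀ g ∈ I,
      g * w * g⁻¹ ∈ C ∧ H P ρ t (g * w * g⁻¹) (ζ g ^ t * a) := by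
    intro w hw
    by_cases h1 : w = 1
    · subst h1
      refine ⟨0, H_one P ρ t, fun h => absurd rfl h, fun g _ => ?_⟩
      rw [mul_one, mul_inv_cancel, mul_zero]
      exact ⟨C.one_mem, H_one P ρ t⟩
    · have hwW := ((hC w).1 hw).1
      have hbw := ((hC w).1 hw).2.resolve_left h1
      obtain ⟨i, a, hi, hib, ha, hall⟩ := hYLC k L G P ρ W I ζ hρ hW hI hζ hζ' w hwW h1
      have hit : i = t := by
        have : (i : ℤ) = t := hib.trans hbw
        exact_mod_cast this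
      subst hit
      refine ⟨a, ?_, fun _ => ha, fun g hg => ?_⟩
      · have h2 := (hall 1 I.one_mem).2
        rw [one_mul, inv_one, mul_one, hζ1, one_pow, one_mul] at h2
        exact h2
      · obtain ⟨h2, h3⟩ := hall g hg
        exact ⟨(hC _).2 ⟨hnW g hg w hwW, Or.inr h2⟩, h3⟩
  let θ : G → k := fun w => if h : ∃ a : k, H P ρ t w a then Classical.choose h else 0
  have hθ : ∀ w (a : k), H P ρ t w a → θ w = a := by
    intro w a ha
    have h : ∃ a : k, H P ρ t w a := ⟨a, ha⟩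
    have h1 : θ w = Classical.choose h := dif_pos h
    rw [h1]
    exact uniq (Classical.choose_spec h) ha
  have hθ' : ∀ w ∈ C, H P ρ t w (θ w) := by
    intro w hw
    obtain ⟨a, ha, -, -⟩ := hlead w hw
    rw [hθ w a ha]
    exact ha
  refine ⟨C, θ, hC, ?_, ?_, ?_, ?_⟩
  · intro w hw w' hw'
    apply hθ
    exact H_mul hLON ht (hfix w (hWI ((hC w).1 hw).1)) (hθ' w hw) (hθ' w' hw')
  · intro w hw hw0
    by_contra h1
    obtain ⟨a, ha, ha', -⟩ := hlead w hw
    exact ha' h1 (by rw [← hθ w a ha]; exact hw0)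
  · intro g hg w hw
    obtain ⟨a, -, -, h⟩ := hlead w hw
    exact (h g hg).1
  · intro g hg w hw
    obtain ⟨a, ha, -, h⟩ := hlead w hw
    rw [hθ _ _ (h g hg).2, hθ w a ha]

end Pool.CND
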